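import Pool.Agent.H.MP_a6ae22_gt.D

set_option autoImplicit false

namespace Pool.Agent.Results.MP_497448_gt.NotUnique

open Set Metric MeasureTheory

/-- `S` is an `r`-minimizer for `M`: compact, connected, its closed `r`-neighbourhood contains `M`,
and its length `H¹` is minimal among all such sets. -/
def IsMin {d : ℕ} (M : Set (EuclideanSpace ℝ (Fin d))) (r : ℝ)
    (S : Set (EuclideanSpace ℝ (Fin d))) : Prop :=
  IsCompact S ∧ IsConnected S ∧ M ⊆ cthickening r S ∧
    ∀ T : Set (EuclideanSpace ℝ (Fin d)), IsCompact T → IsConnected T → M ⊆ cthickening r T →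
      (Measure.hausdorffMeasure (1 : ℝ) : Measure (EuclideanSpace ℝ (Fin d))) S ≤
        (Measure.hausdorffMeasure (1 : ℝ) : Measure (EuclideanSpace ℝ (Fin d))) T

theorem result : ∃ (M : Set (EuclideanSpace ℝ (Fin 2))) (r : ℝ)
    (S S' : Set (EuclideanSpace ℝ (Fin 2))),
    IsCompact M ∧ 0 < r ∧ IsMin M r S ∧ IsMin (cthickening r S) r S' ∧ S' ≠ S := by
  open Pool.Agent.H.MP_a6ae22_gt in
  refine ⟨M8, 43, S1, S2, ?_, by norm_num,
    ⟨S1_cp, S1_con, M_th A_S1, fun S a b c => S1_le.trans (low a b c)⟩,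
    ⟨S2_cp, S2_con, cover, fun S a b c => S2_le.trans (low a b ((M_th A_S1).trans c))⟩, S_ne.symm⟩
  exact Set.Finite.isCompact (by unfold Pool.Agent.H.MP_a6ae22_gt.M8; exact Set.toFinite _)

end Pool.Agent.Results.MP_497448_gt.NotUnique
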